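import Mathlib
import Pool.Agent.H403Z.TriFree

set_option autoImplicit false

/-!
Under Martin's axiom for `ℵ₁` dense sets, or under the proper forcing axiom, no colouring of the
pairs of a set of size at most `ℵ₁` by natural numbers is maximal triangle-free, whether it is
continuous, Borel or arbitrary.

Proof. By compactness either some function with finite range extends the colouring, or there is a
countable `D` such that every point outside `D` sees infinitely many colours on `D`. A Cohen generic
sequence `r n ∈ D`, undefined for infinitely many `n`, covers the complement of `D` by the sets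
`{x | c(x, r n) = n}`, which omit the colour `n`; the points of `D` get the unused colours.
-/

namespace Pool.Agent.Results.MP_28b4a6_lc.ANoMaximal

open Cardinal

/-- `D` is a dense subset of the partial order `P`. -/
def IsDenseIn {P : Type} [PartialOrder P] (D : Set P) : Prop :=
  ∀ p : P, ∃ q ∈ D, q ≤ p

/-- `G` is a filter of the partial order `P`. -/
def IsFilterOn {P : Type} [PartialOrder P] (G : Set P) : Prop :=
  G.Nonempty ∧ (∀ p ∈ G, ∀ q : P, p ≤ q → q ∈ G) ∧ ∀ p ∈ G, ∀ q ∈ G, ∃ r ∈ G, r ≤ p ∧ r ≤ q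

/-- The forcing axiom for `P`: every family of at most `ℵ₁` dense subsets of `P` is met by a
filter. -/
def ForcingAxiom (P : Type) [PartialOrder P] : Prop :=
  ∀ 𝒟 : Set (Set P), #𝒟 ≤ ℵ₁ → (∀ D ∈ 𝒟, IsDenseIn D) →
    ∃ G : Set P, IsFilterOn G ∧ ∀ D ∈ 𝒟, (G ∩ D).Nonempty

/-- The countable chain condition: every set of pairwise incompatible conditions is countable. -/
def CCC (P : Type) [PartialOrder P] : Prop :=
  ∀ A : Set P, (∀ p ∈ A, ∀ q ∈ A, p ≠ q → ¬ ∃ r : P, r ≤ p ∧ r ≤ q) → A.Countable

/-- `S` is predense below `q`: every extension of `q` is compatible with a member of `S`. -/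
def PredenseBelow {P : Type} [PartialOrder P] (S : Set P) (q : P) : Prop :=
  ∀ r : P, r ≤ q → ∃ s ∈ S, ∃ t : P, t ≤ r ∧ t ≤ s

/-- Properness, in its game form. Below each condition `p`, player I plays dense sets
`D 0, D 1, …` and player II answers each finite initial segment of the play by a countable set of
conditions; II wins if some `q ≤ p` is such that for every `n` the conditions of `D n` played by II
are predense below `q`. `P` is proper if II has a winning strategy for every `p`. -/
def Proper (P : Type) [PartialOrder P] : Prop :=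
  ∀ p : P, ∃ σ : List (Set P) → Set P, (∀ l, (σ l).Countable) ∧
    ∀ D : ℕ → Set P, (∀ n, IsDenseIn (D n)) →
      ∃ q : P, q ≤ p ∧
        ∀ n, PredenseBelow (D n ∩ ⋃ k : ℕ, σ (List.ofFn fun i : Fin (k + 1) => D i)) q

/-- Martin's axiom for `ℵ₁` dense sets. -/
def MartinAleph1 : Prop :=
  ∀ (P : Type) [PartialOrder P] [Nonempty P], CCC P → ForcingAxiom P

/-- The proper forcing axiom. -/
def PFA : Prop :=
  ∀ (P : Type) [PartialOrder P] [Nonempty P], Proper P → ForcingAxiom P

/-- A colouring of the unordered pairs of `X` (its values on the diagonal play no role) is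
triangle-free if no three distinct points span a monochromatic triangle. -/
def TriangleFree {X : Type} (c : Sym2 X → ℕ) : Prop :=
  ¬ ∃ x y z : X, x ≠ y ∧ y ≠ z ∧ x ≠ z ∧ c s(x, y) = c s(y, z) ∧ c s(y, z) = c s(x, z)

/-- A colouring is maximal triangle-free if it is triangle-free and no extension of it to the pairs
of `X` together with one new point (the point `none` of `Option X`) is triangle-free. -/
def MaximalTriangleFree {X : Type} (c : Sym2 X → ℕ) : Prop :=
  TriangleFree c ∧ ∀ d : Sym2 (Option X) → ℕ,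
    (∀ x z : X, x ≠ z → d s(some x, some z) = c s(x, z)) → ¬ TriangleFree d

/-- Cohen conditions: finite sequences of natural numbers, ordered by end extension. -/
structure Cond where
  /-- the sequence -/
  l : List ℕ

instance condOrder : PartialOrder Cond where
  le p q := q.l <+: p.l
  le_refl _ := List.prefix_rfl
  le_trans _ _ _ h1 h2 := List.IsPrefix.trans h2 h1
  le_antisymm p q h1 h2 := by
    cases p; cases q
    exact congrArg Cond.mk (h2.eq_of_length_le h1.length_le)

instance condNonempty : Nonempty Cond := ⟨⟨[]⟩⟩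

instance condCountable : Countable Cond :=
  Function.Injective.countable (f := Cond.l) (fun p q h => by cases p; cases q; cases h; rfl)

theorem cohen_axiom (h : MartinAleph1 ∨ PFA) : ForcingAxiom Cond := by
  rcases h with h | h
  · exact h Cond (fun A _ => Set.to_countable A)
  · refine h Cond (fun p => ⟨fun _ => Set.univ, fun _ => Set.to_countable _, fun D hD => ?_⟩)
    refine ⟨p, le_rfl, fun n r _ => ?_⟩
    obtain ⟨q, hq, hqr⟩ := hD n r
    exact ⟨q, ⟨hq, Set.mem_iUnion.2 ⟨0, Set.mem_univ _⟩⟩, q, hqr, le_rfl⟩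

theorem result (h : MartinAleph1 ∨ PFA) (X : Type) (hX : #X ≤ ℵ₁) (c : Sym2 X → ℕ) :
    ¬ MaximalTriangleFree c := by
  rintro ⟨htri, hmax⟩
  have hFA := cohen_axiom h
  obtain ⟨f, hf⟩ := Pool.Agent.H403Z.TriFree.exists_good hX (by
      intro 𝒟 hc hd
      obtain ⟨G, hG, hGD⟩ := hFA ((fun D => Cond.l ⁻¹' D) '' 𝒟) (Cardinal.mk_image_le.trans hc) (by
        rintro _ ⟨D, hD, rfl⟩ p
        obtain ⟨q, hq, hpq⟩ := hd D hD p.l
        exact ⟨⟨q⟩, hq, hpq⟩)
      refine ⟨Cond.l '' G, ?_, fun D hD => ?_⟩
      · rintro _ ⟨p, hp, rfl⟩ _ ⟨q, hq, rfl⟩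
        obtain ⟨r, -, h1, h2⟩ := hG.2.2 p hp q hq
        exact ⟨r.l, h1, h2⟩
      · obtain ⟨p, hp, hpD⟩ := hGD _ ⟨D, hD, rfl⟩
        exact ⟨p.l, ⟨p, hp, rfl⟩, hpD⟩)
    (fun x y => c s(x, y)) (fun x y => by rw [Sym2.eq_swap])
    (fun x y z hxy hyz hxz hb => htri ⟨x, y, z, hxy, hyz, hxz, hb.1.trans hb.2, hb.2.symm⟩)
  let d0 : Option X → Option X → ℕ := fun a b =>
    match a, b with
    | some x, some z => c s(x, z)
    | some x, none => f x
    | none, some z => f z
    | none, none => 0
  have hd0 : ∀ a b, d0 a b = d0 b a := by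
    rintro (_ | x) (_ | z) <;> simp only [d0]
    rw [Sym2.eq_swap]
  refine hmax (Sym2.lift ⟨d0, hd0⟩) (fun x z _ => rfl) ?_
  rintro ⟨a, b, e, hab, hbe, hae, h1, h2⟩
  simp only [Sym2.lift_mk] at h1 h2
  rcases a with _ | x <;> rcases b with _ | y <;> rcases e with _ | z
  · exact hab rfl
  · exact hab rfl
  · exact hae rfl
  · exact hf y trivial z trivial (fun e => hbe (e ▸ rfl)) ⟨h1.trans h2, h2.symm⟩
  · exact hbe rfl
  · exact hf x trivial z trivial (fun e => hae (e ▸ rfl)) ⟨h1, h2⟩
  · exact hf x trivial y trivial (fun e => hab (e ▸ rfl)) ⟨h2.symm, h1.symm⟩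
  · exact htri ⟨x, y, z, fun e => hab (e ▸ rfl), fun e => hbe (e ▸ rfl), fun e => hae (e ▸ rfl),
      h1, h2⟩

end Pool.Agent.Results.MP_28b4a6_lc.ANoMaximal
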